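import Pool.Agent.K7.H53.FM.Main

/-!
# Tate's conjecture for almost all forms of a variety with an action of a finite group scheme

`X` is a smooth projective variety over a number field `K` with a linear action of a finite group scheme
`G` over `K` (`LinearAction`; `G` may be constant, or for example a product of groups `μ_n` acting on a
diagonal hypersurface, or the symmetric group acting on a power), and `V` the space of the classes of the
algebraic cycles of codimension `m` over the algebraic closure; for `m = 1`, the question, it is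
`NS(X) ⊗ ℚ`.  A cocycle `c` of the absolute Galois group with values in `G` gives a form `X_c` of `X`, a
smooth projective variety over `K`.  Tate's conjecture for `X_c` says that `L(H^{2m}(X_c), s)` has at
`s = m + 1` the order `-rank_c`, where `rank_c` is the rank of the group of the classes of cycles on
`X_c` defined over `K`.

The definitions are in `Pool.Agent.K7.H53.FM.Defs` (forms, traces, ranks, and the two conclusions
`SumOfSquares` and `OneFieldGoverns`) and `Pool.Agent.W353.EF.Defs` (Euler systems, sizes, orders).
-/

set_option autoImplicit false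

namespace Pool.Agent.Results.MP_1f4fc7_nt.FormsOfVarieties

open NumberField IsDedekindDomain Filter Topology Polynomial
open Pool.Agent.W353.EF (LFun size HasOrder)
open Pool.Agent.K7.H53.FM

/-- **Tate's conjecture on the pole for the forms of a variety.**  Let `N` be the `2m`-th Betti number of
`X`, `s = N - dim V`, and `h` the number of the Galois orbits of conjugacy classes of `G`.
1. Comparison with the quotient `X / G`.  Let `B₀` be the Euler factors of `L(H^{2m}(X)^G, s)` and
`x₀(ε) = log |L(H^{2m}(X)^G, m + 1 + ε)| / log(1/ε) - rank V^{G, Gal}`, and `x_c(ε)` the corresponding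
function for the form `X_c`.  For pairwise independent cocycles `c_k` and all small `ε > 0`,
`∑ (x_{c_k}(ε) - x₀(ε))² ≤ (h - 1) s² + η`, and the same for the defects (order of the pole minus rank)
if there are continuations.  There is one finite Galois extension `M` of `K`, of degree at most
`|Θ| |G|^((h - 1) s²)` (`Θ` the image of the Galois group in `Aut G`), such that for all cocycles
`c` that are surjective over `M`: `|x_c(ε) - x₀(ε)| < 1` for arbitrarily small `ε > 0`, and the defects
of `X_c` and of `X / G` are equal if there are continuations.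
2. If `H^{2m}(X)^G` consists of classes of cycles (for example, `m = 1`, `X` a surface and `X / G`
rational), then the same holds with `x₀ = 0`: `∑ x_{c_k}(ε)² ≤ (h - 1) s² + η`; and for all cocycles `c`
surjective over `M`, `log |L(H^{2m}(X_c), m + 1 + ε)| / log(1/ε)` differs from the rank of the group of
cycles by less than `1` for arbitrarily small `ε > 0`, and Tate's conjecture on the order of the pole is
true for `X_c` if there is a continuation to a neighbourhood of `m + 1`. -/
theorem result (K : Type) [Field K] [NumberField K] (l d m N : ℕ) (G : Type) [Group G] [Finite G]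
    (𝒜 : LinearAction K l G) (X : Set (MvPolynomial (Fin l) (𝓞 K))) (V : Type) [AddCommGroup V]
    [Module ℚ V] [FiniteDimensional ℚ V]
    (ρ : Representation ℚ (G ⋊[𝒜.θ] Gal(AlgebraicClosure K/K)) V) (hm : m ≤ d)
    (hX : 𝒜.ActsOn X) (hV : IsPart 𝒜 X d m N ρ) :
    (∀ (M₀ : ℕ) (B₀ : HeightOneSpectrum (𝓞 K) → ℂ[X]), IsQuotientSystem 𝒜 X d (2 * m) N M₀ B₀ →
      (∀ᶠ ε : ℝ in 𝓝[>] 0, LFun B₀ (((2 * m : ℕ) : ℂ) / 2 + 1 + ε) ≠ 0) ∧
      SumOfSquares 𝒜 X d m N ρ (fun ε => size (2 * m) B₀ ε - quotientRank 𝒜 ρ) ∧
      OneFieldGoverns 𝒜 X d m N ρ (fun ε => size (2 * m) B₀ ε - quotientRank 𝒜 ρ) ∧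
      ∀ r₀ : ℤ, HasOrder (2 * m) B₀ r₀ →
        Tendsto (fun ε => size (2 * m) B₀ ε - quotientRank 𝒜 ρ) (𝓝[>] 0)
          (𝓝 (-((r₀ + quotientRank 𝒜 ρ : ℤ) : ℝ)))) ∧
    (QuotientAlgebraic 𝒜 X d m N ρ →
      SumOfSquares 𝒜 X d m N ρ (fun _ => 0) ∧ OneFieldGoverns 𝒜 X d m N ρ (fun _ => 0)) :=
  main hm hX hV

end Pool.Agent.Results.MP_1f4fc7_nt.FormsOfVarieties
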