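import Pool.Agent.K7.H53.MV.Main

/-!
# The pole of `L₂` at `s = 2` for products with varieties whose first cohomology is modular

`Y` is a smooth projective variety over a number field `K`, and the `Z_i` are smooth projective
varieties over `K` such that `H¹(Z_i)` is the sum of `μ_i(k)` copies of the restrictions to `K` of the
representations of newforms `f_k` of weight two and any levels, `k ∈ κ`.  Examples are the modular curves
`X₀(N)` for all `N`, all curves over `ℚ` that are quotients of them, all abelian varieties over `ℚ` of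
`GL₂`-type with a totally real field of endomorphisms over `ℚ`, all elliptic curves over `ℚ`, the
products and symmetric products of these varieties, and the surfaces fibred over them whose Albanese
variety is that of the base.

By Künneth `H²(Y × Z_i)` is the sum of `H²(Y)`, `H²(Z_i)` and `H¹(Y) ⊗ H¹(Z_i)`.  So
`L₂(s, Y × Z_i)` should have a pole of order `r₀ + s_i + h_i` at `s = 2`, for the orders `r₀` and `s_i` for
`Y` and `Z_i`, and the rank `h_i` of the group of the homomorphisms between the Albanese varieties of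
`Y` and `Z_i`.  The numbers `t_i = r_i - r₀ - s_i` are the subject of the theorem.

The definitions are in `Pool.Agent.K7.H53.MV.Defs` (`Eigenforms`, `IsModular`, `IsProductSystem`, `Var`,
`Bounded`), `Pool.Agent.W353.EF.Defs` (`IsFrobenius`, `IsEulerSystem`, `LFun`, `size`, `HasOrder`) and
`Pool.Agent.TH941.Newform` (`Hecke`).
-/

set_option autoImplicit false

namespace Pool.Agent.Results.MP_1f4fc7_nt.ModularVarieties

open NumberField IsDedekindDomain Filter Topology Polynomial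
open Pool.Agent.W353.EF (LFun size HasOrder IsEulerSystem)
open Pool.Agent.K7.H53.MV

/-- **Products with modular varieties.**  Let `Y` be a projective variety of dimension `d ≥ 1` over a
number field `K`, given by the equations `X`, with Betti numbers `b₁`, `b₂`, let `(f_k)` be a family of
eigenforms of weight two and any levels, and `Z_i`, `i ∈ ι`, varieties over `K` such that `H¹(Z_i)` is
the sum of `μ_i(k)` copies of the restrictions to `K` of the representations of the `f_k`.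
Let `R = b₁² [K : ℚ]`.
1. (No continuation is assumed.)  For every finite set `I` of indices, `η > 0` and all small `ε > 0`
there is a function `y` on the eigenforms with `∑ (y_k⁺)² ≤ R + η` and `∑ (y_k⁻)² ≤ R + η` such that for
all `i ∈ I` the number
`(log |L₂(2 + ε, Y × Z_i)| - log |L₂(2 + ε, Y)| - log |L₂(2 + ε, Z_i)|) / log(1/ε)`
differs from `∑ μ_i(k) y_k` by at most `η`.
2. Suppose that the functions `L₂(s, Y)`, `L₂(s, Z_i)` and `L₂(s, Y × Z_i)` have meromorphic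
continuations to neighbourhoods of `s = 2`, with poles of orders `r₀`, `s_i` and `r_i`, and let
`t_i = r_i - r₀ - s_i`.
* One function `y` on the eigenforms, with `∑ (y_k⁺)² ≤ R` and `∑ (y_k⁻)² ≤ R`, gives all `t_i`:
`t_i = ∑ μ_i(k) y_k`.
* `t_i² ≤ R ∑ μ_i(k)²`; for example `|t_i| ≤ b₁ √[K : ℚ] √(genus of Z_i)` if `Z_i = X₀(p)` for a prime `p`.
* If no `f_k` appears in `H¹(Z_i)` and `H¹(Z_j)` for `i ≠ j`, then with `G_i = ∑ μ_i(k)²` the sums of all
`(t_i⁺)² / G_i` and of all `(t_i⁻)² / G_i` are at most `R`, and for every `G` there are at most `G R`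
indices with `G_i ≤ G` and `r_i > r₀ + s_i` and at most `G R` with `G_i ≤ G` and `r_i < r₀ + s_i`. -/
theorem result (K : Type) [Field K] [NumberField K] (n d b₁ b₂ : ℕ) (hd : 1 ≤ d)
    (X : Set (MvPolynomial (Fin n) (𝓞 K))) (κ : Type) (F : Eigenforms κ) (ι : Type)
    (Z : ι → Var K) (μ : ι → κ →₀ ℕ) (hμ : ∀ i, IsModular F (Z i).W (Z i).e (Z i).g₁ (μ i))
    (B₀ : HeightOneSpectrum (𝓞 K) → ℂ[X]) (h₀ : IsEulerSystem X d 2 b₂ B₀)
    (D : ι → HeightOneSpectrum (𝓞 K) → ℂ[X])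
    (hD : ∀ i, IsEulerSystem (Z i).W (Z i).e 2 (Z i).g₂ (D i))
    (B : ι → HeightOneSpectrum (𝓞 K) → ℂ[X])
    (hB : ∀ i, IsProductSystem X d b₁ b₂ (Z i).W (Z i).e (Z i).g₁ (Z i).g₂ (B i)) :
    (∀ (I : Finset ι) (η : ℝ), 0 < η → ∀ᶠ ε : ℝ in 𝓝[>] 0,
      ∃ y : κ → ℝ, Bounded y ((b₁ : ℝ) ^ 2 * Module.finrank ℚ K + η) ∧
        ∀ i ∈ I, LFun (B i) (((2 : ℕ) : ℂ) / 2 + 1 + ε) ≠ 0 ∧
          LFun B₀ (((2 : ℕ) : ℂ) / 2 + 1 + ε) ≠ 0 ∧
          LFun (D i) (((2 : ℕ) : ℂ) / 2 + 1 + ε) ≠ 0 ∧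
          |size 2 (B i) ε - size 2 B₀ ε - size 2 (D i) ε -
            ∑ k ∈ (μ i).support, (μ i k : ℝ) * y k| ≤ η) ∧
    ∀ (r₀ : ℤ) (s r : ι → ℤ), HasOrder 2 B₀ (-r₀) → (∀ i, HasOrder 2 (D i) (-s i)) →
      (∀ i, HasOrder 2 (B i) (-r i)) →
      (∃ y : κ → ℝ, Bounded y ((b₁ : ℝ) ^ 2 * Module.finrank ℚ K) ∧
        ∀ i, (r i : ℝ) - r₀ - s i = ∑ k ∈ (μ i).support, (μ i k : ℝ) * y k) ∧
      (∀ i, (r i - r₀ - s i) ^ 2 ≤
        (∑ k ∈ (μ i).support, (μ i k : ℤ) ^ 2) * (b₁ ^ 2 * Module.finrank ℚ K)) ∧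
      ((∀ i j, i ≠ j → Disjoint (μ i).support (μ j).support) →
        (∀ J : Finset ι,
          ∑ i ∈ J, (max ((r i : ℝ) - r₀ - s i) 0) ^ 2 / (∑ k ∈ (μ i).support, (μ i k : ℝ) ^ 2) ≤
            (b₁ : ℝ) ^ 2 * Module.finrank ℚ K ∧
          ∑ i ∈ J, (max (-((r i : ℝ) - r₀ - s i)) 0) ^ 2 /
            (∑ k ∈ (μ i).support, (μ i k : ℝ) ^ 2) ≤ (b₁ : ℝ) ^ 2 * Module.finrank ℚ K) ∧
        ∀ G : ℕ,
          {i | r₀ + s i < r i ∧ ∑ k ∈ (μ i).support, (μ i k) ^ 2 ≤ G}.Finite ∧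
          {i | r₀ + s i < r i ∧ ∑ k ∈ (μ i).support, (μ i k) ^ 2 ≤ G}.ncard ≤
            G * (b₁ ^ 2 * Module.finrank ℚ K) ∧
          {i | r i < r₀ + s i ∧ ∑ k ∈ (μ i).support, (μ i k) ^ 2 ≤ G}.Finite ∧
          {i | r i < r₀ + s i ∧ ∑ k ∈ (μ i).support, (μ i k) ^ 2 ≤ G}.ncard ≤
            G * (b₁ ^ 2 * Module.finrank ℚ K)) := by
  refine ⟨fun I η hη => main_size hd Z μ hμ h₀ hD hB I hη, fun r₀ s r hr₀ hs hr => ?_⟩
  obtain ⟨y, hy, hyr⟩ := main_order hd Z μ hμ h₀ hD hB hr₀ hs hr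
  refine ⟨⟨y, hy, hyr⟩, fun i => ?_, fun hdis => ⟨fun J => sums_le μ hdis hy hyr J, fun G => ?_⟩⟩
  · have h1 := abs_le_of_bounded hy (μ i).support (μ i)
    rw [← hyr i] at h1
    exact_mod_cast h1
  · have hR : ((b₁ : ℝ) ^ 2 * Module.finrank ℚ K) = ((b₁ ^ 2 * Module.finrank ℚ K : ℕ) : ℝ) := by
      push_cast
      rfl
    rw [hR] at hy
    have h1 := exceptions μ hdis hy (t := fun i => r i - r₀ - s i) (fun i => by
      rw [← hyr i]
      push_cast
      rfl) G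
    have e1 : {i | r₀ + s i < r i ∧ ∑ k ∈ (μ i).support, (μ i k) ^ 2 ≤ G} =
        {i | 0 < r i - r₀ - s i ∧ ∑ k ∈ (μ i).support, (μ i k) ^ 2 ≤ G} := by
      ext i
      simp only [Set.mem_setOf_eq]
      constructor <;> rintro ⟨h, h'⟩ <;> exact ⟨by omega, h'⟩
    have e2 : {i | r i < r₀ + s i ∧ ∑ k ∈ (μ i).support, (μ i k) ^ 2 ≤ G} =
        {i | r i - r₀ - s i < 0 ∧ ∑ k ∈ (μ i).support, (μ i k) ^ 2 ≤ G} := by
      ext i
      simp only [Set.mem_setOf_eq]
      constructor <;> rintro ⟨h, h'⟩ <;> exact ⟨by omega, h'⟩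
    rw [e1, e2]
    exact h1

end Pool.Agent.Results.MP_1f4fc7_nt.ModularVarieties
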