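import Pool.Agent.K7.H53.JA.Main

/-!
# `L₂(s)` near `s = 2` for products of Jacobians of hyperelliptic curves

`C_i : y² = f_i(x)`, `i < k`, are hyperelliptic curves over `ℚ` of genus `g_i ≥ 1`, `f_i` monic of degree
`2 g_i + 1` with arbitrary integer coefficients of absolute value at most `H`, and
`A_c = ∏ J(C_i)^{ν_i}`, an abelian variety; `c` is the vector of all coefficients.  By Künneth
`H²(A_c)` is the second exterior power of `⊕ H¹(C_i)^{ν_i}`.  If the endomorphism rings of the `J(C_i)` are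
`ℤ` and there are no homomorphisms between different `J(C_i)`, which is the general case, then
`NS(A_c)` is the sum of the groups of the symmetric `ν_i × ν_i` matrices, of rank
`rk ν = ∑ ν_i (ν_i + 1) / 2`.

The definitions are in `Pool.Agent.K7.H53.JA.Defs` (`Idx`, `poly`, `aff`, `tr1`, `tr2`, `trH2`,
`IsFrobenius`, `rk`), `Pool.Agent.Y722.HS.Box` (`box`, `red`) and `Pool.Agent.Y722.HS.LSum` (`LP`, the
Euler product).
-/

set_option autoImplicit false

namespace Pool.Agent.Results.MP_1f4fc7_nt.ProductsOfJacobians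

open Pool.Agent.Y722.HS Pool.Agent.K7.H53.JA

/-- **Products of Jacobians.**  In mean square over the `c` in the box of height `H` the L-function
`L₂(s, A_c)` of the abelian variety `A_c = ∏ J(C_i)^{ν_i}` behaves at the distance `ε` from `s = 2` as if
it had a pole of order `rk ν = ∑ ν_i (ν_i + 1) / 2` there, for all `ε` between `1 / log H` and `1`; here
`ε = ε(c)` may depend on `c` in any way, so that the bound is one for the supremum over these `ε`. -/
theorem result (k : ℕ) (g : Fin k → ℕ) (hg : ∀ i, 1 ≤ g i) (ν : Fin k → ℕ) (b₂ : ℕ) :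
    ∃ C : ℝ, ∀ H : ℕ, 2 ≤ H → ∀ S ⊆ box (Idx g) H,
      ∀ (γ : (Idx g → ℤ) → ℕ → Fin b₂ → ℂ) (ε : (Idx g → ℤ) → ℝ),
      (∀ c ∈ S, IsFrobenius ν b₂ c (γ c)) →
      (∀ c ∈ S, 1 / Real.log H ≤ ε c ∧ ε c ≤ 1) →
      ∑ c ∈ S, (Real.log ‖LP (γ c) (2 + ε c)‖ - rk ν * Real.log (1 / ε c)) ^ 2 ≤
        C * (box (Idx g) H).card :=
  main hg ν b₂

end Pool.Agent.Results.MP_1f4fc7_nt.ProductsOfJacobians
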