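import Pool.Agent.K7.H53.EL.Main

/-!
# `L₂(s)` near `s = 2` for elliptic and hyperelliptic surfaces with prescribed sections

`g, n ≥ 1` and `m ≤ 2 g` are integers and `b_1(t), …, b_m(t)` are different polynomials of degree at most
`2 n` with integer coefficients.  The surface `X_c` over `ℚ` is fibred over the `t`-line by the curves
`y² + h(x, t) y = (x - b_1(t)) ⋯ (x - b_m(t)) q(x, t)`
of genus `g`, where `h` has degree `g` in `x` and `q` is monic of degree `2 g + 1 - m` in `x`; the
coefficient of `x^j` in `h` is a polynomial in `t` of degree at most `n (2 g + 1 - 2 j)`, that of `x^j` in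
`q` is one of degree at most `2 n (2 g + 1 - m - j)`, and `c` is the vector of all these coefficients,
arbitrary integers of absolute value at most `H`.  For `g = 1` these are the elliptic surfaces in
Weierstrass form of arithmetic genus `n - 1` (K3 surfaces for `n = 2`), all of them for `m = 0`, those with
the section `(b_1, 0)` for `m = 1`, and those with the sections `(b_1, 0)`, `(b_2, 0)` for `m = 2`.
`NS(X_c / ℚ)` contains the fibre, the section at infinity and the `m` sections `(b_i, 0)`, which are
independent, so that its rank is at least `2 + m`.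

The definitions are in `Pool.Agent.K7.H53.EL.Defs` (`ev`, `Idx`, `hv`, `qv`, `Bv`, `OnX`, `points`,
`IsFrobenius`), `Pool.Agent.Y722.HS.Box` (`box`, `red`) and `Pool.Agent.Y722.HS.LSum` (`LP`, the Euler
product).
-/

set_option autoImplicit false

namespace Pool.Agent.Results.MP_1f4fc7_nt.SurfacesWithSections

open Pool.Agent.Y722.HS Pool.Agent.K7.H53.EL

/-- **Surfaces with `m` prescribed sections.**  The points `(b_i(τ), 0)` lie on the fibre of `X_c` at `τ`.
For every polynomial `P ≠ 0` in the coefficients (in the application a multiple of the discriminant of the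
family, so that `X_c` has good reduction at the primes that do not divide `P(c)`) there is a `C` such that
in mean square over the `c` in the box of height `H` the L-function `L₂(s, X_c)` behaves at the distance
`ε` from `s = 2` as if it had a pole of order `2 + m` there, for all `ε` between `1 / log H` and `1`; here
`ε = ε(c)` may depend on `c` in any way, so that the bound is one for the supremum over these `ε`. -/
theorem result (g n m : ℕ) (hg : 1 ≤ g) (hn : 1 ≤ n) (hm : m ≤ 2 * g)
    (b : Fin m → Fin (2 * n + 1) → ℤ) (hb : Function.Injective b)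
    (P : MvPolynomial (Idx g n m) ℤ) (hP : P ≠ 0) (b₂ : ℕ) :
    (∀ (R : Type) [CommRing R] (c : Idx g n m → R) (i : Fin m) (τ : Option R),
      OnX b c τ (ev (fun a => (b i a : R)) τ) 0) ∧
    ∃ C : ℝ, ∀ H : ℕ, 2 ≤ H → ∀ S ⊆ box (Idx g n m) H,
      ∀ (γ : (Idx g n m → ℤ) → ℕ → Fin b₂ → ℂ) (ε : (Idx g n m → ℤ) → ℝ),
      (∀ c ∈ S, IsFrobenius b P b₂ c (γ c)) →
      (∀ c ∈ S, 1 / Real.log H ≤ ε c ∧ ε c ≤ 1) →
      ∑ c ∈ S, (Real.log ‖LP (γ c) (2 + ε c)‖ - (2 + m) * Real.log (1 / ε c)) ^ 2 ≤
        C * (box (Idx g n m) H).card := by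
  refine ⟨?_, main hg hn hm b hb P hP b₂⟩
  intro R _ c i τ
  unfold OnX Bv
  rw [Finset.prod_eq_zero (Finset.mem_univ i) (sub_self _)]
  ring

end Pool.Agent.Results.MP_1f4fc7_nt.SurfacesWithSections
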